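import Pool.Agent.X324.CF.Plus2

set_option autoImplicit false

/-!
# The nef cone conjecture for pairs on quotients `(A × F) / G`

`A = V / Λ` is an abelian variety and `F` a normal projective variety, `ℚ`-factorial with free class
group, whose nef cone is spanned by finitely many semiample classes; for instance a Mori dream space.
Let `X = (A × F) / G`, where a finite group `G` acts diagonally; the action may have fixed points and
fixed divisors, and it may permute the faces of the nef cone of `F`. Let `Δ` be an effective divisor on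
`X` with real coefficients such that `K_X + Δ` is numerically trivial; in particular `(X, Δ)` may be
any klt Calabi-Yau pair on `X`. (Only the curves of `X` which come from curves `C × {point}` in `A × F`
are needed for this hypothesis.) The theorem says that the cone `Nef^e(X)` of nef and effective classes
has a rational polyhedral fundamental domain for the action of `Aut(X, Δ)`, that it is the convex hull
`Nef^+(X)` of the rational nef classes, and that its faces form finitely many orbits. The theorem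
`relative` below gives the same for the cones of `X → Z`, `Z` a quotient of an abelian variety.

The proof of the general theorem on cones is in the library `Pool.Agent.X324.CF` (its theorem `core`):
a class is a pair of an invariant hermitian form on `V` and an invariant class of `F`; reduction theory
for the orders in the algebra of the endomorphisms of `A` which commute with `G` gives finitely many
cones for the forms, they are combined with the faces of the nef cone of `F`, and a Dirichlet domain of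
a rational linear form with trivial stabiliser is a fundamental domain. The automorphisms which are
used are of the form `(f, id)`, and they fix `Δ` by Liouville's theorem.

`Cl`, `IsNefPolyhedral`, `Grp`, `base`, `IsQuotient`, `Sheaf`, `EffDiv`, `EffDiv.Fixed`, `NumTrivial`,
`Normalizes`, `N1`, `integral`, `effective`, `semiample`, `nefCone`, `effCone` and `IsPullback` are
defined in `Pool.Agent.X324.CF.Defs`; `IsTorusQuotient` in `Pool.Agent.W594.SYZ.Defs2`;
`IsPositiveForm` in `Pool.Agent.W594.SYZ.TQDefs`; `IsFibration` in `Pool.Agent.TH735.AQ.Defs`;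
`AffGrp`, `LinGrp`, `Preserves` and `IsFundDomain` in `Pool.Agent.Y167.Defs` and `Pool.Agent.Y167.Stm`;
`cone` in `Pool.Agent.Y167.ConeDef`; `IsFace` in `Pool.Agent.Y167.StmFace`. In the absolute case the
linear subspace `E` of `V` of the general definitions is `V` itself, embedded by the identity map.
-/

namespace Pool.Agent.Results.MP_9f99c5_ag.ProductQuotientPairs

open Pool.Agent.W594.SYZ2 Pool.Agent.TH735.AQ Pool.Agent.X324.CF
open Pool.Agent.Y167 (AffGrp IsFace cone)
open Pool.Agent.Y167.CC (LinGrp Preserves IsFundDomain)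

section Defs

variable {V E R : Type*} [NormedAddCommGroup V] [NormedSpace ℂ V] [NormedAddCommGroup E]
  [NormedSpace ℂ E] [CommRing R] [Algebra ℂ R] {ρ : ℕ}

/-- The cone `Nef^e` of nef and effective classes. -/
def nefEff (𝒜 : Cl ρ → Submodule ℂ R) (u : Cl ρ) (Γ : Grp V R) (j : E →ₗ[ℂ] V) :
    Set (N1 𝒜 Γ j) := nefCone 𝒜 Γ j u ∩ effCone 𝒜 Γ j

/-- The rational classes: those which have a positive integral multiple. -/
def rational (𝒜 : Cl ρ → Submodule ℂ R) (Γ : Grp V R) (j : E →ₗ[ℂ] V) : Set (N1 𝒜 Γ j) :=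
  {a | ∃ m : ℕ, 0 < m ∧ (m : ℝ) • a ∈ integral 𝒜 Γ j}

/-- The assertions of the nef cone conjecture for the group `𝒢` of linear automorphisms of `N^1`:
there is a finite set `S` of integral classes such that the cone spanned by `S` is contained in the
cone `Nef^e` of nef and effective classes and is a fundamental domain for the action of `𝒢` on
`Nef^e`; moreover `Nef^e` is the convex hull of the rational nef classes, and its faces form finitely
many orbits under `𝒢`. -/
def ConeConjecture (𝒜 : Cl ρ → Submodule ℂ R) (u : Cl ρ) (Γ : Grp V R) (j : E →ₗ[ℂ] V)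
    (𝒢 : LinGrp (N1 𝒜 Γ j)) : Prop :=
  (∃ S : Finset (N1 𝒜 Γ j), ↑S ⊆ integral 𝒜 Γ j ∧ cone S ⊆ nefEff 𝒜 u Γ j ∧
    IsFundDomain 𝒢 (nefEff 𝒜 u Γ j) (cone S)) ∧
  nefEff 𝒜 u Γ j = convexHull ℝ (nefCone 𝒜 Γ j u ∩ rational 𝒜 Γ j) ∧
  ∃ 𝓕 : Set (Set (N1 𝒜 Γ j)), 𝓕.Finite ∧ (∀ Φ ∈ 𝓕, IsFace Φ (nefEff 𝒜 u Γ j)) ∧
    ∀ Φ, IsFace Φ (nefEff 𝒜 u Γ j) → ∃ g ∈ 𝒢, ∃ Φ' ∈ 𝓕, Φ = g '' Φ'

/-- `𝒢` is a group of linear automorphisms of `N^1(X)` which preserves the integral classes and the
cone of nef and effective classes, and which contains the pullbacks by all automorphisms of `X` of the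
form `(f, id)` which map `Δ` to itself. The image of `Aut(X, Δ)` has these properties, also if
`Aut(X, Δ)` is defined as the group of the automorphisms which map the support of `Δ` to itself. -/
structure IsAutGroup {𝒜 : Cl ρ → Submodule ℂ R} (u : Cl ρ) {Γ : Grp V R} {ι : Type*} [Fintype ι]
    (Δ : EffDiv 𝒜 Γ ι) (𝒢 : LinGrp (N1 𝒜 Γ (LinearMap.id : V →ₗ[ℂ] V))) : Prop where
  int : Preserves 𝒢 (integral 𝒜 Γ LinearMap.id)
  nef_eff : Preserves 𝒢 (nefEff 𝒜 u Γ LinearMap.id)
  aff : ∀ f : V ≃ᵃ[ℂ] V, Normalizes Γ f → Δ.Fixed f → ∀ g, IsPullback f g → g ∈ 𝒢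

/-- The automorphism of `X` given by the affine transformation `f` of `V` and the identity of `F` is
an automorphism over `Z = W / Γ'`. -/
def Over {W : Type*} [NormedAddCommGroup W] [NormedSpace ℂ W] (Γ' : AffGrp W) (π : V →ₗ[ℂ] W)
    (f : V ≃ᵃ[ℂ] V) : Prop :=
  ∃ δ ∈ Γ', ∀ v, π (f v) = δ (π v)

/-- The analogue of `IsAutGroup` for the group of the automorphisms over `Z = W / Γ'`. -/
structure IsRelAutGroup {W : Type*} [NormedAddCommGroup W] [NormedSpace ℂ W]
    {𝒜 : Cl ρ → Submodule ℂ R} (u : Cl ρ) {Γ : Grp V R} (Γ' : AffGrp W) (π : V →ₗ[ℂ] W)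
    {j : E →ₗ[ℂ] V} {ι : Type*} [Fintype ι] (Δ : EffDiv 𝒜 Γ ι) (𝒢 : LinGrp (N1 𝒜 Γ j)) : Prop where
  int : Preserves 𝒢 (integral 𝒜 Γ j)
  nef_eff : Preserves 𝒢 (nefEff 𝒜 u Γ j)
  aff : ∀ f : V ≃ᵃ[ℂ] V, Normalizes Γ f → Over Γ' π f → Δ.Fixed f →
    ∀ g, IsPullback f g → g ∈ 𝒢

end Defs

/-- The relative nef cone conjecture for `X → Z = W / Γ'`, where `E` is the kernel of `V → W`. -/
theorem relative {V W E R : Type*} [NormedAddCommGroup V] [NormedSpace ℂ V] [FiniteDimensional ℂ V]
    [NormedAddCommGroup W] [NormedSpace ℂ W] [FiniteDimensional ℂ W]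
    [NormedAddCommGroup E] [NormedSpace ℂ E] [FiniteDimensional ℂ E]
    [CommRing R] [IsDomain R] [Algebra ℂ R] {ρ n : ℕ}
    (𝒜 : Cl ρ → Submodule ℂ R) [GradedAlgebra 𝒜] (w : Fin n → Cl ρ) (u : Cl ρ)
    (hF : IsNefPolyhedral 𝒜 w u) (Γ : Grp V R) (hX : IsQuotient 𝒜 u Γ)
    (hproj : ∃ (L : Sheaf 𝒜 Γ) (H : V → V → ℂ), L.IsChern H ∧ IsPositiveForm H)
    (Γ' : AffGrp W) (π : V →ₗ[ℂ] W) (hπ : IsFibration (base Γ) Γ' π)
    (j : E →ₗ[ℂ] V) (hj : Function.Injective j) (hjr : LinearMap.range j = LinearMap.ker π)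
    {ι : Type*} [Fintype ι] (Δ : EffDiv 𝒜 Γ ι) (hΔ : NumTrivial Δ j)
    (𝒢 : LinGrp (N1 𝒜 Γ j)) (h𝒢 : IsRelAutGroup u Γ' π Δ 𝒢) : ConeConjecture 𝒜 u Γ j 𝒢 := by
  obtain ⟨H₀, Rl⟩ := rel_emb hX hproj hπ hj hjr
  obtain ⟨S, h1, h2, h3⟩ := core hF.base hX hF.fam Rl (good_nef hF hX) Δ hΔ 𝒢 h𝒢.int h𝒢.nef_eff
    (fun f hf hf2 hf3 g hg => h𝒢.aff f hf ⟨1, Γ'.one_mem, fun v => by
      obtain ⟨e, he⟩ := hf2 v
      have h5 : π (j e) = 0 := by
        have h6 : j e ∈ LinearMap.ker π := hjr ▸ LinearMap.mem_range_self j e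
        exact h6
      rw [he, map_add, h5, add_zero]
      rfl⟩ hf3 g hg)
  exact ⟨⟨S, h1, h2, h3⟩, plus hF.base hX hF.fam Rl (good_nef hF hX),
    faces hF.base hX hF.fam Rl (good_nef hF hX) 𝒢 h𝒢.nef_eff h2 h3⟩

/-- Let `F` be a variety whose nef cone is spanned by the semiample classes `w i`, with ample class
`u`. Let `X = (V × F) / Γ` be a projective quotient and `Δ` an effective divisor with real coefficients
on `X` such that `K_X + Δ` is numerically trivial. Then the nef cone conjecture holds for `(X, Δ)`: there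
is a finite set `S` of integral classes such that the cone spanned by `S` is contained in `Nef^e(X)` and
is a fundamental domain for the action of `𝒢` on `Nef^e(X)`. Moreover `Nef^e(X)` is the convex hull of
the rational nef classes, and its faces form finitely many orbits under `𝒢`. -/
theorem result {V R : Type*} [NormedAddCommGroup V] [NormedSpace ℂ V] [FiniteDimensional ℂ V]
    [CommRing R] [IsDomain R] [Algebra ℂ R] {ρ n : ℕ}
    (𝒜 : Cl ρ → Submodule ℂ R) [GradedAlgebra 𝒜] (w : Fin n → Cl ρ) (u : Cl ρ)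
    (hF : IsNefPolyhedral 𝒜 w u) (Γ : Grp V R) (hX : IsQuotient 𝒜 u Γ)
    (hproj : ∃ (L : Sheaf 𝒜 Γ) (H : V → V → ℂ), L.IsChern H ∧ IsPositiveForm H)
    {ι : Type*} [Fintype ι] (Δ : EffDiv 𝒜 Γ ι) (hΔ : NumTrivial Δ (LinearMap.id : V →ₗ[ℂ] V))
    (𝒢 : LinGrp (N1 𝒜 Γ (LinearMap.id : V →ₗ[ℂ] V))) (h𝒢 : IsAutGroup u Δ 𝒢) :
    ConeConjecture 𝒜 u Γ LinearMap.id 𝒢 := by
  obtain ⟨H₀, Rl⟩ := rel_id hX hproj
  obtain ⟨S, h1, h2, h3⟩ := core hF.base hX hF.fam Rl (good_nef hF hX) Δ hΔ 𝒢 h𝒢.int h𝒢.nef_eff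
    (fun f hf _ hf3 g hg => h𝒢.aff f hf hf3 g hg)
  exact ⟨⟨S, h1, h2, h3⟩, plus hF.base hX hF.fam Rl (good_nef hF hX),
    faces hF.base hX hF.fam Rl (good_nef hF hX) 𝒢 h𝒢.nef_eff h2 h3⟩

end Pool.Agent.Results.MP_9f99c5_ag.ProductQuotientPairs
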